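import Pool.Agent.W5h82.Trace.Final

/-!
Approximate average-case trace reconstruction under insertions and deletions with a number of
traces polynomial in `1/ε`.
-/

set_option autoImplicit false

open MeasureTheory ENNReal

namespace Pool.Agent.Results.MP_78205c_lc.ApproxTraceReconstruction

open W5h82.Trace

/-- First-step equation of the channel at a character `c`.  If `f t` is the probability that the
rest of the input produces the output `t`, then `step p c f t` is the probability that the channel,
standing at the character `c`, produces the output `t`: with probability `1-p` it copies `c` and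
moves on, with probability `p/2` it deletes `c` and moves on, and with probability `p/2` it
outputs a uniformly random bit (which has to be the first symbol of `t`, probability `1/2`) and
stays at `c`. -/
noncomputable def step (p : ℝ) (c : Bool) (f : List Bool → ℝ) : List Bool → ℝ
  | [] => p/2 * f []
  | b :: t => (1-p) * (if b = c then f t else 0) + p/2 * f (b :: t) + p/2 * (1/2 * step p c f t)

/-- `chanProb p s t` is the probability that the trace of `s` is `t`. -/
noncomputable def chanProb (p : ℝ) : List Bool → List Bool → ℝ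
  | [], t => if t = [] then 1 else 0
  | c :: s, t => step p c (chanProb p s) t

/-- `y` arises from `x` by one deletion, one insertion or one substitution. -/
def EditStep (x y : List Bool) : Prop :=
  (∃ u v c, x = u ++ c :: v ∧ y = u ++ v) ∨ (∃ u v c, x = u ++ v ∧ y = u ++ c :: v) ∨
    (∃ u v c d, x = u ++ c :: v ∧ y = u ++ d :: v)

/-- `k` edit steps turn `x` into `y`. -/
def Edits : ℕ → List Bool → List Bool → Prop
  | 0, x, y => x = y
  | k+1, x, y => ∃ z, EditStep x z ∧ Edits k z y

/-- edit distance: the least number of edit steps -/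
noncomputable def editDist (x y : List Bool) : ℕ := sInf {k | Edits k x y}

open Classical in
/-- The probability that `ok s t` holds, when `s` is uniform on `{0,1}^n` and `t 0, …, t (m-1)` are
`m` independent traces of `s`. -/
noncomputable def prob (p : ℝ) (n m : ℕ) (ok : List Bool → (Fin m → List Bool) → Prop) : ℝ :=
  ∑ s : Fin n → Bool, (1/2)^n * ∑' t : Fin m → List Bool,
    if ok (List.ofFn s) t then ∏ i, chanProb p (List.ofFn s) (t i) else 0

/-! ### the law of the channel -/

section law
variable (p : ℝ) [hp : Fact (0 < p ∧ p < 1)]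

lemma real_step (S : ℕ → Bool) (a n : ℕ) (t : List Bool) :
    (actL p (n+1)).real {l | segL S a l = t}
      = step p (S a) (fun t => (actL p n).real {l | segL S (a+1) l = t}) t := by
  classical
  set f : List Bool → ℝ := fun t => (actL p n).real {l | segL S (a+1) l = t} with hf
  set G : List Bool → Act → ℝ := fun t x =>
    (actL p n).real {l | piece (S a) x ++ segL S (a+1) l = t} with hG
  have hGb : ∀ t x, |G t x| ≤ 1 := by
    intro t x
    rw [abs_of_nonneg measureReal_nonneg]
    exact measureReal_le_one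
  have h1 : (actL p (n+1)).real {l | segL S a l = t} = ∫ x, G t x ∂(act p) := by
    rw [← integral_ind, integral_actL_succ p n _ 1 (ind_le _)]
    congr 1
    ext x
    have e : G t x = (actL p n).real {l | piece (S a) x ++ segL S (a + 1) l = t} := rfl
    rw [e, ← integral_ind]
    rfl
  have h2 : ∀ t, ∫ x, G t x ∂(act p) = step p (S a) f t := by
    intro t
    induction t with
    | nil =>
      rw [integral_act_step p (G []) 1 (hGb [])]
      have e1 : G [] ([], true) = 0 := by simp [hG, piece]
      have e2 : G [] ([], false) = f [] := by simp [hG, hf, piece]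
      have e3 : ∀ (b : Bool) (x : Act), G [] (b :: x.1, x.2) = 0 := by
        intro b x; simp [hG, piece]
      simp only [e1, e2, e3, integral_zero, step]
      ring
    | cons b t ih =>
      rw [integral_act_step p (G (b :: t)) 1 (hGb _)]
      have e1 : G (b :: t) ([], true) = if b = S a then f t else 0 := by
        by_cases h : b = S a
        · simp [hG, hf, piece, h]
        · have h' : ¬ S a = b := fun h' => h h'.symm
          simp [hG, piece, h, h']
      have e2 : G (b :: t) ([], false) = f (b :: t) := by simp [hG, hf, piece]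
      have e3 : ∀ (c : Bool) (x : Act), G (b :: t) (c :: x.1, x.2) = if c = b then G t x else 0 := by
        intro c x
        by_cases h : c = b
        · simp [hG, piece, h]
        · simp [hG, piece, h]
      simp only [e1, e2, e3, step]
      rw [← ih]
      cases b <;> simp <;> ring
  rw [h1, h2]

lemma real_chan (S : ℕ → Bool) (n : ℕ) : ∀ (a : ℕ) (t : List Bool),
    (actL p n).real {l | segL S a l = t} = chanProb p (sub S a n) t := by
  induction n with
  | zero =>
    intro a t
    rw [sub_zero', chanProb, ← integral_ind, actL, integral_dirac]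
    by_cases h : t = []
    · simp [ind, segL, h]
    · have h' : ¬ [] = t := fun h' => h h'.symm
      simp [ind, segL, h, h']
  | succ n ih =>
    intro a t
    rw [real_step, sub_succ, chanProb]
    simp only [ih]

lemma sub_ext {n : ℕ} (s : Fin n → Bool) : sub (ext s) 0 n = List.ofFn s := by
  apply List.ext_getElem
  · simp
  · intro i h1 h2
    simp only [sub_length] at h1
    simp [sub, ext, h1]

/-- the channel law is a probability law -/
theorem chanProb_tsum (s : List Bool) : HasSum (chanProb p s) 1 := by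
  set S : ℕ → Bool := fun k => s.getD k false with hS
  have hsub : sub S 0 s.length = s := by
    apply List.ext_getElem
    · simp
    · intro i h1 h2
      simp [sub, hS, h2]
  have h1 : ∀ t, chanProb p s t = ((actL p s.length) {l | segL S 0 l = t}).toReal := by
    intro t
    rw [← measureReal_def, real_chan, hsub]
  have h2 : ∑' t, (actL p s.length) {l | segL S 0 l = t} = 1 := by
    have h3 := Measure.tsum_indicator_apply_singleton ((actL p s.length).map (segL S 0)) Set.univ
      MeasurableSet.of_discrete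
    rw [Measure.map_apply Measurable.of_discrete MeasurableSet.of_discrete] at h3
    simp only [Set.indicator_univ, Set.preimage_univ, measure_univ] at h3
    rw [← h3]
    congr 1
    ext t
    rw [Measure.map_apply Measurable.of_discrete MeasurableSet.of_discrete]
    rfl
  have h4 : HasSum (fun t => ((actL p s.length) {l | segL S 0 l = t}).toReal)
      (∑' t, (actL p s.length) {l | segL S 0 l = t}).toReal := by
    rw [ENNReal.tsum_toReal_eq (fun t => measure_ne_top _ _)]
    exact ENNReal.hasSum_toReal (by rw [h2]; simp)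
  rw [h2] at h4
  simpa [h1, funext h1] using h4

/-- the probability in terms of the product space -/
theorem real_prob {m M N0 n : ℕ} (h : N0 + n ≤ M) (ok : List Bool → (Fin m → List Bool) → Prop) :
    (mu p m M).real {ω | ok (sub (bit ω) N0 n) (fun i => seg (bit ω) (ac ω i) N0 n)}
      = prob p n m ok := by
  classical
  have h1 := joint_law p (m := m) (M := M) h (fun s t => ok (List.ofFn s) t)
  have e1 : {ω : Om m M | ok (sub (bit ω) N0 n) (fun i => seg (bit ω) (ac ω i) N0 n)}
      = {ω | ok (List.ofFn (fun k : Fin n => bit ω (N0+k)))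
        (fun i => seg (bit ω) (ac ω i) N0 n)} := by
    ext ω
    have : sub (bit ω) N0 n = List.ofFn (fun k : Fin n => bit ω (N0+k)) := by
      apply List.ext_getElem
      · simp
      · intro i h1 h2
        simp [sub]
    rw [Set.mem_ofPred_eq, Set.mem_ofPred_eq, this]
  rw [e1, measureReal_def, h1, ENNReal.toReal_sum]
  · unfold prob
    apply Finset.sum_congr rfl
    intro s _
    rw [ENNReal.toReal_mul, ENNReal.toReal_pow]
    congr 1
    · simp
    · rw [ENNReal.tsum_toReal_eq]
      · congr 1
        ext t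
        by_cases ht : ok (List.ofFn s) t
        · rw [Set.indicator_of_mem (by exact ht), if_pos ht, ENNReal.toReal_prod]
          apply Finset.prod_congr rfl
          intro i _
          rw [← measureReal_def, real_chan, sub_ext]
        · rw [Set.indicator_of_notMem (by exact ht), if_neg ht]; rfl
      · intro t
        unfold Set.indicator
        split
        · exact ENNReal.prod_ne_top (fun i _ => measure_ne_top _ _)
        · simp
  · intro s _
    have h2 := prob_traces p (m := m) (M := M) (N0 := N0) (n := n) h (ext s)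
      {t | ok (List.ofFn s) t}
    rw [← h2]
    exact ENNReal.mul_ne_top (by simp) (measure_ne_top _ _)

end law

/-! ### edit distance -/

lemma EditStep.symm {x y : List Bool} (h : EditStep x y) : EditStep y x := by
  rcases h with ⟨u, v, c, h1, h2⟩ | ⟨u, v, c, h1, h2⟩ | ⟨u, v, c, d, h1, h2⟩
  · exact Or.inr (Or.inl ⟨u, v, c, h2, h1⟩)
  · exact Or.inl ⟨u, v, c, h2, h1⟩
  · exact Or.inr (Or.inr ⟨u, v, d, c, h2, h1⟩)

lemma EditStep.cons {x y : List Bool} (a : Bool) (h : EditStep x y) :
    EditStep (a :: x) (a :: y) := by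
  rcases h with ⟨u, v, c, h1, h2⟩ | ⟨u, v, c, h1, h2⟩ | ⟨u, v, c, d, h1, h2⟩
  · exact Or.inl ⟨a :: u, v, c, by rw [h1]; rfl, by rw [h2]; rfl⟩
  · exact Or.inr (Or.inl ⟨a :: u, v, c, by rw [h1]; rfl, by rw [h2]; rfl⟩)
  · exact Or.inr (Or.inr ⟨a :: u, v, c, d, by rw [h1]; rfl, by rw [h2]; rfl⟩)

lemma Edits.cons (a : Bool) : ∀ {k : ℕ} {x y : List Bool}, Edits k x y →
    Edits k (a :: x) (a :: y) := by
  intro k
  induction k with
  | zero => intro x y h; exact congrArg (List.cons a) h
  | succ k ih =>
    rintro x y ⟨z, h1, h2⟩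
    exact ⟨a :: z, h1.cons a, ih h2⟩

lemma Edits.trans : ∀ {j k : ℕ} {x y z : List Bool}, Edits j x y → Edits k y z →
    Edits (k + j) x z := by
  intro j
  induction j with
  | zero =>
    intro k x y z h1 h2
    have h1' : x = y := h1
    subst h1'; exact h2
  | succ j ih =>
    rintro k x y z ⟨w, h1, h2⟩ h3
    exact ⟨w, h1, ih h2 h3⟩

lemma Edits.symm : ∀ {k : ℕ} {x y : List Bool}, Edits k x y → Edits k y x := by
  intro k
  induction k with
  | zero =>
    intro x y h
    have h' : x = y := h
    exact h'.symm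
  | succ k ih =>
    rintro x y ⟨z, h1, h2⟩
    have h3 : Edits 1 z x := ⟨x, h1.symm, rfl⟩
    have := (ih h2).trans h3
    rwa [Nat.add_comm] at this

lemma edits_of_sublist {z x : List Bool} (h : z.Sublist x) : Edits (x.length - z.length) x z := by
  induction h with
  | slnil => rfl
  | @cons z x a h ih =>
    have hl := h.length_le
    rw [List.length_cons, show x.length + 1 - z.length = (x.length - z.length) + 1 by omega]
    exact ⟨x, Or.inl ⟨[], x, a, rfl, rfl⟩, ih⟩
  | @cons_cons z x a h ih =>
    rw [List.length_cons, List.length_cons, Nat.add_sub_add_right]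
    exact ih.cons a

lemma editDist_le {k : ℕ} {x y : List Bool} (h : Ind k x y) : editDist x y ≤ k := by
  obtain ⟨z, h1, h2, h3⟩ := h
  have h4 := (edits_of_sublist h1).trans (edits_of_sublist h2).symm
  have h5 : editDist x y ≤ (y.length - z.length) + (x.length - z.length) := Nat.sInf_le h4
  have := h1.length_le
  have := h2.length_le
  omega

/-! ### the theorem -/

theorem aux {κ : ℕ} (hκ : 49600 ≤ κ) {C : ℝ} (hC : 2^49353 ≤ C) (p ε : ℝ) (n : ℕ) (hp0 : 0 < p)
    (hpc : p ≤ (1/2)^(κ+20)) (hε0 : 0 < ε) (hε1 : ε < 1) (hn : 1 ≤ n) :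
    ∃ (m : ℕ) (A : (Fin m → List Bool) → List Bool), (m:ℝ) ≤ C * (1/ε)^98704 ∧
      1 - 1/(n:ℝ) ≤ prob p n m (fun s t => (editDist s (A t) : ℝ) ≤ C * ε * p * n) := by
  classical
  have hc1 : (1/2:ℝ)^(κ+20) < 1 := pow_lt_one₀ (by norm_num) (by norm_num) (by omega)
  have : Fact (0 < p ∧ p < 1) := ⟨⟨hp0, lt_of_le_of_lt hpc hc1⟩⟩
  have hδ0 : 0 < ε * p := by positivity
  have hδp : ε * p < p := by nlinarith
  -- the integer `H`
  have hex : ∃ H : ℕ, (1/2:ℝ)^H ≤ ε * p := by
    obtain ⟨H, hH⟩ := exists_pow_lt_of_lt_one hδ0 (show (1/2:ℝ) < 1 by norm_num)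
    exact ⟨H, hH.le⟩
  set H := Nat.find hex with hHdef
  have hH1 : (1/2:ℝ)^H ≤ ε * p := Nat.find_spec hex
  have hHκ : κ + 20 ≤ H := by
    by_contra hcon
    push Not at hcon
    have : (1/2:ℝ)^(κ+20) ≤ (1/2)^H := pow_le_pow_of_le_one (by norm_num) (by norm_num) hcon.le
    linarith
  have hH2 : ε * p < 2 * (1/2)^H := by
    have h1 := Nat.find_min hex (m := H - 1) (by omega)
    push Not at h1
    have h2 : 2 * (1/2:ℝ)^H = (1/2)^(H-1) := by
      obtain ⟨k, hk⟩ : ∃ k, H = k + 1 := ⟨H - 1, by omega⟩
      rw [hk, pow_succ, Nat.add_sub_cancel]; ring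
    rw [h2]; exact h1
  have h2H : (2:ℝ)^H * (1/2)^H = 1 := by rw [← mul_pow]; norm_num
  -- the number of voters
  have hfinish : ∀ m : ℕ, m + 1 ≤ 2^((κ-200)*H) → (((m+1 : ℕ)):ℝ) ≤ 2^49353 * (1/ε)^98704 →
      (∀ R M, M = 16 * wid H R → H ≤ R →
        ∃ (Acc : List Bool → (Fin m → List Bool) → ℕ → Set (List Bool))
        (BV : ℕ → Set (Om (m+1) M)), Votes p H R m M Acc BV) →
      ∃ (m : ℕ) (A : (Fin m → List Bool) → List Bool), (m:ℝ) ≤ C * (1/ε)^98704 ∧
      1 - 1/(n:ℝ) ≤ prob p n m (fun s t => (editDist s (A t) : ℝ) ≤ C * ε * p * n) := by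
    intro m hm1 hm2 hV
    obtain ⟨M, N0, hNM, D, hD⟩ := exists_decoder p (κ := κ) (H := H) (m := m) (by omega) (by omega)
      hpc hm1 n hn hV
    have hC1 : 1 ≤ C := le_trans (one_le_pow₀ (by norm_num)) hC
    have hm3 : ((m+1 : ℕ):ℝ) ≤ C * (1/ε)^98704 :=
      hm2.trans (mul_le_mul_of_nonneg_right hC (by positivity))
    refine ⟨m+1, D, hm3, hD.trans ?_⟩
    rw [← real_prob p hNM]
    apply measureReal_mono _ (measure_ne_top _ _)
    rintro ω ⟨k, hk1, hk2⟩
    simp only [Set.mem_ofPred_eq]
    have h1 : ((editDist (sub (bit ω) N0 n) (D (fun i => seg (bit ω) (ac ω i) N0 n)) : ℕ) : ℝ)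
        ≤ k := by exact_mod_cast editDist_le hk2
    have h2 : (0:ℝ) ≤ n := by positivity
    calc _ ≤ (k:ℝ) := h1
      _ ≤ n * (1/2)^H := hk1
      _ ≤ n * (ε * p) := mul_le_mul_of_nonneg_left hH1 h2
      _ = 1 * (ε * p * n) := by ring
      _ ≤ C * (ε * p * n) := mul_le_mul_of_nonneg_right hC1 (by positivity)
      _ = C * ε * p * n := by ring
  have hinv : 1 ≤ 1/ε := by rw [le_div_iff₀ hε0]; linarith
  rcases lt_or_ge p ε with hlt | hge
  · -- few traces suffice
    apply hfinish 480
    · calc 480 + 1 ≤ 2^9 := by norm_num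
        _ ≤ 2^((κ-200)*H) := Nat.pow_le_pow_right (by norm_num) (by
            calc 9 ≤ 9 * 1 := by norm_num
              _ ≤ (κ-200)*H := Nat.mul_le_mul (by omega) (by omega))
    · have h1 : (1:ℝ) ≤ (1/ε)^98704 := one_le_pow₀ hinv
      have h2 : ((481:ℕ):ℝ) ≤ 2^49353 := by
        calc ((481:ℕ):ℝ) ≤ 2^9 := by norm_num
          _ ≤ 2^49353 := pow_le_pow_right₀ (by norm_num) (by norm_num)
      have h3 : (0:ℝ) ≤ 2^49353 := by positivity
      calc ((481:ℕ):ℝ) ≤ 2^49353 := h2
        _ ≤ 2^49353 * (1/ε)^98704 := le_mul_of_one_le_right h3 h1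
    · intro R M hM hR
      refine ⟨_, _, votesM p (H := H) (R := R) (by omega) ?_ rfl hM hR⟩
      have : p^2 ≤ ε * p := by nlinarith
      linarith
  · -- many traces
    apply hfinish (2^(49352*H))
    · calc 2^(49352*H) + 1 ≤ 2^(49352*H) * 2 := by
            have : 1 ≤ 2^(49352*H) := Nat.one_le_two_pow
            omega
        _ = 2^(49352*H+1) := by rw [pow_succ]
        _ ≤ 2^((κ-200)*H) := Nat.pow_le_pow_right (by norm_num) (by
            have h1 : 49400 * H ≤ (κ-200)*H := Nat.mul_le_mul_right _ (by omega)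
            omega)
    · have h1 : (2:ℝ)^H ≤ 2 * (1/ε)^2 := by
        have h3 : ε * ε ≤ ε * p := mul_le_mul_of_nonneg_left hge hε0.le
        have h4 : ε^2 * 2^H ≤ 2 := by
          have h5 : ε^2 * 2^H ≤ (2 * (1/2)^H) * 2^H := by
            apply mul_le_mul_of_nonneg_right _ (by positivity)
            nlinarith
          calc ε^2 * 2^H ≤ (2 * (1/2)^H) * 2^H := h5
            _ = 2 * (2^H * (1/2)^H) := by ring
            _ = 2 := by rw [h2H, mul_one]
        rw [one_div_pow, mul_one_div, le_div_iff₀ (by positivity)]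
        linarith
      have h2 : ((2:ℝ)^H)^49352 ≤ (2 * (1/ε)^2)^49352 := pow_le_pow_left₀ (by positivity) h1 _
      push_cast
      have h3 : (1:ℝ) ≤ ((2:ℝ)^H)^49352 := one_le_pow₀ (one_le_pow₀ (by norm_num))
      calc (2:ℝ)^(49352*H) + 1 = ((2:ℝ)^H)^49352 + 1 := by rw [← pow_mul, mul_comm H]
        _ ≤ 2 * ((2:ℝ)^H)^49352 := by linarith
        _ ≤ 2 * (2 * (1/ε)^2)^49352 := by linarith
        _ = 2^49353 * (1/ε)^98704 := by
            rw [mul_pow, ← pow_mul, pow_succ 2 49352]; ring
    · intro R M hM hR
      exact ⟨_, _, votesD p (κ := κ) (H := H) (R := R) (by omega) (by omega) hpc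
        (by
          calc 2^(49352*H) + 1 ≤ 2^(49352*H) * 2 := by
                have : 1 ≤ 2^(49352*H) := Nat.one_le_two_pow
                omega
            _ = 2^(49352*H+1) := by rw [pow_succ]
            _ ≤ 2^((κ-200)*H) := Nat.pow_le_pow_right (by norm_num) (by
                have h1 : 49400 * H ≤ (κ-200)*H := Nat.mul_le_mul_right _ (by omega)
                omega))
        le_rfl hM hR⟩

/-- Q1, affirmative answer. -/
theorem result : ∃ (c₀ C : ℝ) (k : ℕ), 0 < c₀ ∧ c₀ < 1 ∧ 0 < C ∧ 0 < k ∧
    ∀ (p ε : ℝ) (n : ℕ), 0 < p → p ≤ c₀ → 0 < ε → ε < 1 → 1 ≤ n →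
      ∃ (m : ℕ) (A : (Fin m → List Bool) → List Bool), (m : ℝ) ≤ C * (1/ε)^k ∧
        1 - 1/(n:ℝ) ≤ prob p n m (fun s t => (editDist s (A t) : ℝ) ≤ C * ε * p * n) := by
  refine ⟨(1/2)^(49600+20), 2^49353, 98704, by positivity,
    pow_lt_one₀ (by norm_num) (by norm_num) (by norm_num), by positivity, by norm_num, ?_⟩
  intro p ε n hp0 hpc hε0 hε1 hn
  exact aux le_rfl le_rfl p ε n hp0 hpc hε0 hε1 hn

end Pool.Agent.Results.MP_78205c_lc.ApproxTraceReconstruction
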